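import Pool.Agent.H837.HT.Link

/-!
# Smooth subvarieties of small codimension: complete intersections over finite fields

A closed subvariety `X` of pure codimension `e` of the projective space of dimension `n` is given by
`N` forms `F i` of degrees `δ i`; it is smooth (`SmoothBy e b`, where `b` bounds the degrees of the
equations of the open sets on which `e` of the forms define `X`) and not empty.
`CompleteIntersection e F` says that the `F i` are in the ideal generated by `e` forms which are zero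
on `X`, `Transversal e c F` that `X` is a transversal intersection of `e` hypersurfaces of degrees at
most `c`. `QuestionCI n e K` and `Question n e K` say that over the field `K` all these `X` are complete
intersections, or transversal intersections.

It is shown that for all `n` and `e` the question over the complex numbers is equivalent to the same
statement for all `X` with given `N, b, δ` over all algebraically closed fields outside finitely many
characteristics, and to this statement over the algebraic closures of the prime fields `F_l` for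
infinitely many `l`. For complete intersections no bound for the complexity is needed: the degrees of
the equations are at most the degrees of the `F i`. One `X` given by polynomials over the integers is a
complete intersection if and only if its reductions modulo large primes are.
-/

set_option autoImplicit false

namespace Pool.Agent.Results.MP_9a3fdb_ag.OverFiniteFields

open MvPolynomial Pool.Agent.H837.AB Pool.Agent.H837.HT

/-- **Smooth subvarieties of small codimension: complete intersections over finite fields.** -/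
theorem result :
    (∀ n e : ℕ, [∀ (K : Type) [Field K] [IsAlgClosed K] [CharZero K], QuestionCI n e K,
     QuestionCI n e ℂ,
     ∀ (N b : ℕ) (δ : Fin N → ℕ), ∃ M : ℕ, M ≠ 0 ∧
       ∀ (K : Type) [Field K] [IsAlgClosed K], (M : K) ≠ 0 →
       ∀ F : Fin N → MvPolynomial (Fin (n + 1)) K, (∀ i, (F i).IsHomogeneous (δ i)) →
         (∃ x : Fin (n + 1) → K, x ≠ 0 ∧ Zero F x) → SmoothBy e b F → CompleteIntersection e F,
     ∀ (N b : ℕ) (δ : Fin N → ℕ), ∃ ℓ₀ : ℕ, ∀ (ℓ : ℕ) [Fact ℓ.Prime], ℓ₀ ≤ ℓ →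
       ∀ F : Fin N → MvPolynomial (Fin (n + 1)) (AlgebraicClosure (ZMod ℓ)),
         (∀ i, (F i).IsHomogeneous (δ i)) →
         (∃ x : Fin (n + 1) → AlgebraicClosure (ZMod ℓ), x ≠ 0 ∧ Zero F x) → SmoothBy e b F →
           CompleteIntersection e F,
     ∀ (N b : ℕ) (δ : Fin N → ℕ) (ℓ₀ : ℕ), ∃ (ℓ : ℕ) (_ : Fact ℓ.Prime), ℓ₀ ≤ ℓ ∧
       ∀ F : Fin N → MvPolynomial (Fin (n + 1)) (AlgebraicClosure (ZMod ℓ)),
         (∀ i, (F i).IsHomogeneous (δ i)) →
         (∃ x : Fin (n + 1) → AlgebraicClosure (ZMod ℓ), x ≠ 0 ∧ Zero F x) → SmoothBy e b F →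
           CompleteIntersection e F].TFAE) ∧
    (∀ n e : ℕ, [∀ (K : Type) [Field K] [IsAlgClosed K] [CharZero K], Question n e K,
     Question n e ℂ,
     ∀ (N b : ℕ) (δ : Fin N → ℕ), ∃ c M : ℕ, M ≠ 0 ∧
       ∀ (K : Type) [Field K] [IsAlgClosed K], (M : K) ≠ 0 →
       ∀ F : Fin N → MvPolynomial (Fin (n + 1)) K, (∀ i, (F i).IsHomogeneous (δ i)) →
         (∃ x : Fin (n + 1) → K, x ≠ 0 ∧ Zero F x) → SmoothBy e b F → Transversal e c F,
     ∀ (N b : ℕ) (δ : Fin N → ℕ), ∃ c ℓ₀ : ℕ, ∀ (ℓ : ℕ) [Fact ℓ.Prime], ℓ₀ ≤ ℓ →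
       ∀ F : Fin N → MvPolynomial (Fin (n + 1)) (AlgebraicClosure (ZMod ℓ)),
         (∀ i, (F i).IsHomogeneous (δ i)) →
         (∃ x : Fin (n + 1) → AlgebraicClosure (ZMod ℓ), x ≠ 0 ∧ Zero F x) → SmoothBy e b F →
           Transversal e c F,
     ∀ (N b : ℕ) (δ : Fin N → ℕ), ∃ c : ℕ, ∀ ℓ₀ : ℕ, ∃ (ℓ : ℕ) (_ : Fact ℓ.Prime), ℓ₀ ≤ ℓ ∧
       ∀ F : Fin N → MvPolynomial (Fin (n + 1)) (AlgebraicClosure (ZMod ℓ)),
         (∀ i, (F i).IsHomogeneous (δ i)) →
         (∃ x : Fin (n + 1) → AlgebraicClosure (ZMod ℓ), x ≠ 0 ∧ Zero F x) → SmoothBy e b F →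
           Transversal e c F].TFAE) ∧
    (∀ (r N e b : ℕ) (δ : Fin N → ℕ) (F : Fin N → MvPolynomial (Fin (r + 1)) ℤ),
      (∀ i, (F i).IsHomogeneous (δ i)) →
      (∃ x : Fin (r + 1) → ℂ, x ≠ 0 ∧ Zero (fun i => map (Int.castRingHom ℂ) (F i)) x) →
      (SmoothBy e b fun i => map (Int.castRingHom ℂ) (F i)) →
      [CompleteIntersection e fun i => map (Int.castRingHom ℂ) (F i),
       ∃ ℓ₀ : ℕ, ∀ (ℓ : ℕ) [Fact ℓ.Prime], ℓ₀ ≤ ℓ →
         CompleteIntersection e fun i => map (Int.castRingHom (AlgebraicClosure (ZMod ℓ))) (F i),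
       ∀ ℓ₀ : ℕ, ∃ (ℓ : ℕ) (_ : Fact ℓ.Prime), ℓ₀ ≤ ℓ ∧
         CompleteIntersection e
           fun i => map (Int.castRingHom (AlgebraicClosure (ZMod ℓ))) (F i)].TFAE) ∧
    ∀ (K : Type) [Field K] [IsAlgClosed K] (r N e b : ℕ) (δ : Fin N → ℕ)
      (F : Fin N → MvPolynomial (Fin (r + 1)) K), (∀ i, (F i).IsHomogeneous (δ i)) →
      (∃ x : Fin (r + 1) → K, x ≠ 0 ∧ Zero F x) → SmoothBy e b F →
        CompleteIntersection e F → Transversal e (∑ i, δ i) F :=
  ⟨questionCi_tfae, question_tfae, fun _ _ _ _ _ F hF hx hs => reductionsCi_tfae F hF hx hs,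
    fun _ _ _ _ _ _ _ _ _ hF hx hs h => h.transversal hF hx hs⟩

end Pool.Agent.Results.MP_9a3fdb_ag.OverFiniteFields
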