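import Pool.Agent.H932.S.Final

/-!
# Codimension two: the multisecant lines which meet a given line

Let `X ⊂ P^n` be a closed subscheme which is the zero scheme of a section of a rank two bundle `E`
(for `n ≥ 6` every nonsingular `X` of codimension two is of this form, by the theorems of
Barth-Larsen and Serre), and let `e` be the first Chern class of `E`, so that `ω_X = O_X(e - n - 1)`.
Suppose that `D > e² / 4` and `D > (m - 1)²`, where `D` is a lower bound for the degree of `X` (a
sum of lengths of intersections of `X` with lines of a plane pencil).  Let `Λ` be a linear subspace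
of dimension `m ≥ 2`.  Then every line in `Λ` which is disjoint from `X` meets a line `L ⊆ Λ` such
that the length of `X ∩ L` is at least `m`.  For `Λ = P^n` this says that the `n`-secant lines of `X`
sweep out at least a hypersurface.  (For a nonsingular `X` of codimension two the
`(dimension + 2)`-secant lemma of Ran says that they sweep out at most a hypersurface.)

The proof: otherwise the lines of length `m - 1` through the points of the line `A` contain a
complete family over `A`, on which the determinant of the comparison of the space of sections of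
`E(j)` on the line, `j` large, with the frame given by the section and its divisor on the line, is a
nowhere vanishing function of bidegree `(d - k², d - k e + k²)`, `k = m - 1`, where `d` is the degree
of `X`; both numbers are positive.
-/

open MvPolynomial H960VB H960VB.Bundle2

namespace Pool.Agent.Results.MP_9a3fdb_ag.SecantHypersurface

/-- the affine cone over the projective zero set `X` of the ideal `I` -/
def cone {n : ℕ} (I : Ideal (MvPolynomial (Fin (n + 1)) ℂ)) : Set (Fin (n + 1) → ℂ) :=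
  {x | ∀ F ∈ I, eval x F = 0}

/-- `X` is, as a scheme, the zero scheme of the global section `s` of the rank two bundle `E`: the
ideal `I` of `X` is the saturation of the ideal generated by the coordinates of `s`. -/
def IsZeroScheme {n : ℕ} (E : Bundle2 n) (s : Fin E.a → MvPolynomial (Fin (n + 1)) ℂ)
    (I : Ideal (MvPolynomial (Fin (n + 1)) ℂ)) : Prop :=
  E.IsSection 0 s ∧ ∀ F, F ∈ I ↔ ∃ N : ℕ, ∀ i, X i ^ N * F ∈ Ideal.span (Set.range s)

/-- restriction of a polynomial to the line through `A` and `B` -/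
noncomputable def res {n : ℕ} (A B : Fin (n + 1) → ℂ) (F : MvPolynomial (Fin (n + 1)) ℂ) :
    MvPolynomial (Fin 2) ℂ := aeval (fun i => C (A i) * X 0 + C (B i) * X 1) F

/-- The intersection of `X` with the line through `A` and `B` is a scheme of length `k`: the
restrictions of the elements of the ideal `I` to the line are multiples of a binary form `g ≠ 0` of
degree `k`, and the quotients have no common zero. -/
def Length {n : ℕ} (I : Ideal (MvPolynomial (Fin (n + 1)) ℂ)) (A B : Fin (n + 1) → ℂ) (k : ℕ) :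
    Prop :=
  ∃ g : MvPolynomial (Fin 2) ℂ, g.IsHomogeneous k ∧ g ≠ 0 ∧ (∀ F ∈ I, g ∣ res A B F) ∧
    ∀ z : Fin 2 → ℂ, z ≠ 0 → ∃ F ∈ I, ∃ h, res A B F = g * h ∧ eval z h ≠ 0

/-- A bound for the degree of `X`: the lines through the point `x` outside `X` and the points
`R + t S` (all the lines but one through `x` in a plane) do not all meet `X`, and the line with the
parameter `t ∈ T` meets `X` in a scheme of length at least `h t`; the degree of `X` is at least the
sum `D` of these numbers. -/
structure DegreeBound {n : ℕ} (I : Ideal (MvPolynomial (Fin (n + 1)) ℂ))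
    (x R S : Fin (n + 1) → ℂ) (T : Finset ℂ) (h : ℂ → ℕ) (D : ℤ) : Prop where
  point : x ∉ cone I
  lines : ∀ t : ℂ, LinearIndependent ℂ ![x, R + t • S]
  miss : ∃ t : ℂ, Length I x (R + t • S) 0
  meet : ∀ t ∈ T, ∃ k, h t ≤ k ∧ Length I x (R + t • S) k
  sum : D = ∑ t ∈ T, (h t : ℤ)

theorem result {n : ℕ} (I : Ideal (MvPolynomial (Fin (n + 1)) ℂ))
    (E : Bundle2 n) (s : Fin E.a → MvPolynomial (Fin (n + 1)) ℂ) (hs : IsZeroScheme E s I)
    -- the first Chern class of `E` is `e`
    (e : ℤ) (he : ∀ A B : Fin (n + 1) → ℂ, LinearIndependent ℂ ![A, B] →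
      ∀ a b : ℤ, E.SplitsOn A B a b → a + b = e)
    -- a linear subspace of projective dimension `m`
    (m : ℕ) (hm : 2 ≤ m) (Λ : Submodule ℂ (Fin (n + 1) → ℂ)) (hΛ : Module.finrank ℂ Λ = m + 1)
    -- the degree
    (x R S : Fin (n + 1) → ℂ) (T : Finset ℂ) (h : ℂ → ℕ) (D : ℤ) (hD : DegreeBound I x R S T h D)
    (hDe : e * e < 4 * D) (hDm : ((m : ℤ) - 1) * ((m : ℤ) - 1) < D)
    -- a line in the subspace, disjoint from `X`
    (A B : Fin (n + 1) → ℂ) (hA : A ∈ Λ) (hB : B ∈ Λ) (hAB : LinearIndependent ℂ ![A, B])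
    (hX : ∀ P ∈ Submodule.span ℂ {A, B}, P ≠ 0 → P ∉ cone I) :
    ∃ P ∈ Submodule.span ℂ {A, B}, ∃ Q ∈ Λ, LinearIndependent ℂ ![P, Q] ∧
      ∃ k, m ≤ k ∧ Length I P Q k := by
  have hne : ∀ Q : Fin (n + 1) → ℂ, Q ≠ 0 → Q ∉ cone I → evv s Q ≠ 0 := by
    intro Q hQ0 hQ h0
    apply hQ
    intro F hF
    obtain ⟨N, hN⟩ := (hs.2 F).1 hF
    obtain ⟨i, hi⟩ := Function.ne_iff.1 hQ0
    have h1 : eval Q (X i ^ N * F) = 0 := by
      have h2 : Ideal.span (Set.range s) ≤ RingHom.ker (eval Q : MvPolynomial _ ℂ →+* ℂ) := by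
        rw [Ideal.span_le]
        rintro _ ⟨j, rfl⟩
        exact congrFun h0 j
      exact h2 (hN i)
    rw [map_mul, map_pow, eval_X] at h1
    exact (mul_eq_zero.1 h1).resolve_left (pow_ne_zero _ hi)
  have hlen : ∀ A B : Fin (n + 1) → ℂ, LinearIndependent ℂ ![A, B] → A ∉ cone I → ∀ k,
      Length I A B k ↔ H932S.Ln E s 0 k A B := by
    intro A B hAB hA k
    have h1 := H932S.s_Len_of H932S.s_Exact I E s hs.1 hs.2 A B hAB (hne A (hAB.ne_zero 0) hA) k
    refine h1.trans ⟨fun h2 => ⟨h2.1, fun ⟨c, f, h3⟩ => h2.2 c f h3⟩,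
      fun h2 => ⟨h2.1, fun c f h3 => h2.2 ⟨c, f, h3⟩⟩⟩
  obtain ⟨t₁, ht₁⟩ := hD.miss
  have H : H932S.Pcl E s 0 x R S T h := by
    refine ⟨hne x ((hD.lines 0).ne_zero 0) hD.point, hD.lines, ⟨t₁, ?_⟩, fun t ht => ?_⟩
    · exact ((hlen x _ (hD.lines t₁) hD.point 0).1 ht₁).2
    · obtain ⟨k, hk, hk2⟩ := hD.meet t ht
      exact ((hlen x _ (hD.lines t) hD.point k).1 hk2).1.mono
        (hne x ((hD.lines 0).ne_zero 0) hD.point) hk
  obtain ⟨P, hP, Q, hQ, hPQ, k, hk, hln⟩ := H932S.two_final E hs.1 he H (by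
    rw [← hD.sum]
    have h1 : (e + 2 * 0) * (e + 2 * 0) = e * e := by ring
    rw [h1]
    exact hDe) m hm (by
    rw [← hD.sum]
    exact hDm) Λ hΛ hA hB hAB (fun y hy hy0 => hne y hy0 (hX y hy hy0))
  exact ⟨P, hP, Q, hQ, hPQ, k, hk, (hlen P Q hPQ (hX P hP (hPQ.ne_zero 0)) k).2 hln⟩

end Pool.Agent.Results.MP_9a3fdb_ag.SecantHypersurface
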